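import Mathlib
import Pool.Agent.H869.DetectSplit

/-!
# Measures that detect every non-null set by translation (MP_db9878_lc)

Let `μ` be an atomless Borel probability measure on the real line.  Then there are a Borel set `B`
and a set `X` of positive outer Lebesgue measure such that every translate of `X` meets `B` in a
countable set (so in a `μ`-null set), while every restriction of `μ` to a Borel subset of the
complement of `B` has Fourier coefficients tending to zero.  Consequently an atomless probability
measure `μ` such that every set of positive outer Lebesgue measure has a translate of positive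
outer `μ`-measure has a nonzero restriction which is a Rajchman measure.  All this is in ZFC.

Proof.  (a) If the coefficients of `μ` restricted to `A` do not tend to zero, then a minimal norm
argument in `L²(μ)` gives trigonometric polynomials `P_m = ∑ c_m(n) e(nx)` with `∑ |c_m(n)| ≤ 1` and
`∑ |c_m(n)|² → 0` which converge almost everywhere to a function which is not zero almost
everywhere on `A`.  By exhaustion countably many such sequences, indexed by `j`, have the property
that the set `B` of the points where `liminf |P_{j,m}| > 0` for some `j` is, up to a null set, the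
largest one; off `B` all restrictions have vanishing coefficients.
(b) Let `A_{j,m}(g) = ∑ |c_{j,m}(n)| e(ng)`.  If `F` is a finite set with `|A_{j,m}(x-x')| ≤ δ` for
all distinct `x, x'` in `F`, then Bessel's inequality says that at most `(1+|F|δ)/ε²` points `x` of
`F` have `|P_{j,m}(x+s)| ≥ ε`, for every real `s`.  So it is enough to find `X` of positive outer
Lebesgue measure such that for every finite subset `F` of `X`, all `j` and `δ > 0` there are
infinitely many `m` with this property.
(c) `X` is built by a recursion of length continuum, avoiding one null Borel set at each step.  For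
null sets `N` and `G` there are continuum many points outside `N` all of whose differences are
outside `G` (points `r (1 + ∑ ε_i b_i)` for a suitable real `r` and quickly decreasing `b_i`).  If
`G` is the null set of those `g` for which `A_{j,m}(g) → 0` fails, then, again by Bessel's
inequality, for every `j`, `δ` and every admissible finite set `F` only finitely many of these
points `z` are bad, i.e. such that `F ∪ {z}` is not admissible.
-/

set_option autoImplicit false

open Filter Topology MeasureTheory

namespace Pool.Agent.Results.MP_db9878_lc.DetectingHasRajchmanPart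

theorem result (μ : Measure ℝ) [IsProbabilityMeasure μ] (hat : ∀ x : ℝ, μ {x} = 0) :
    (∃ B X : Set ℝ, MeasurableSet B ∧ volume X ≠ 0 ∧
      (∀ t : ℝ, (((fun x => x + t) '' X) ∩ B).Countable) ∧
      (∀ t : ℝ, μ (((fun x => x + t) '' X) ∩ B) = 0) ∧
      (∀ A : Set ℝ, A ⊆ Bᶜ → MeasurableSet A →
        Tendsto (fun n : ℤ => ∫ x in A, Complex.exp (2 * Real.pi * ((n * x : ℝ) : ℂ) * Complex.I) ∂μ)
          cofinite (𝓝 0))) ∧
    ((∀ X : Set ℝ, volume X ≠ 0 → ∃ t : ℝ, μ ((fun x => x + t) '' X) ≠ 0) →
      ∃ A₀ : Set ℝ, MeasurableSet A₀ ∧ μ A₀ ≠ 0 ∧ ∀ A : Set ℝ, A ⊆ A₀ → MeasurableSet A →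
        Tendsto (fun n : ℤ => ∫ x in A, Complex.exp (2 * Real.pi * ((n * x : ℝ) : ℂ) * Complex.I) ∂μ)
          cofinite (𝓝 0)) := by
  have hns : NullSingletonClass μ := ⟨hat⟩
  obtain ⟨B, X, hB, hX0, hX, hA⟩ := Pool.MP_db9878_lc.LargeAverages.splitting μ
  have hnull : ∀ t : ℝ, μ (((fun x => x + t) '' X) ∩ B) = 0 := fun t => (hX t).measure_zero μ
  refine ⟨⟨B, X, hB, hX0, hX, hnull, fun A hAB hAm => hA A hAB hAm⟩, fun hdet => ?_⟩
  refine ⟨Bᶜ, hB.compl, ?_, fun A hAB hAm => hA A hAB hAm⟩
  intro h0
  obtain ⟨t, ht⟩ := hdet X hX0
  apply ht
  have hsub : (fun x => x + t) '' X ⊆ (((fun x => x + t) '' X) ∩ B) ∪ Bᶜ := by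
    intro y hy
    by_cases hyB : y ∈ B
    · exact Or.inl ⟨hy, hyB⟩
    · exact Or.inr hyB
  exact measure_mono_null hsub (measure_union_null (hnull t) h0)

end Pool.Agent.Results.MP_db9878_lc.DetectingHasRajchmanPart
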